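import Pool.Agent.helper33.SP.SpecC1

/-! # sp:UI4 : event inclusion -/

namespace TP

open DP MeasureTheory

theorem UI4_cl {c c' : V → Bool} {x : V} {m n : ℕ} (h : ∀ v ∈ ann x m n, c v = c' v) :
    four c x m n → four c' x m n := by
  rintro ⟨u, hu, v, hv, ⟨u', hu', h1⟩, ⟨v', hv', h2⟩, h3⟩
  exact ⟨u, hu, v, hv, ⟨u', hu', (Conn.congr h).1 h1⟩, ⟨v', hv', (Conn.congr h).1 h2⟩,
    fun h4 => h3 ((Conn.congr h).2 h4)⟩

theorem UI4_far {x v w : V} {a m : ℕ} (hv : sd x v ≤ a) (hw : m ≤ sd x w) (h : a + 2 ≤ m) :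
    br v ≠ br w := by
  apply br_ne
  simp only [sd] at *
  omega

theorem UI4_far' {x v w : V} {a m : ℕ} (hv : a ≤ sd x v) (hw : sd x w ≤ m) (h : m + 2 ≤ a) :
    br v ≠ br w := by
  apply br_ne
  simp only [sd] at *
  omega

theorem UI4 (h2 : UI2_stmt) (h3 : UI3_stmt) (h10 : UI10_stmt) (hAM : DP.AM_stmt) : UI4_stmt := by
  rintro i b x r m' m n n' N hx hr hm hmn hn hN hbox ⟨v, hv, hvr⟩ hno
  have hAM4 : ∀ (c : V → Bool) (a a' e' e : ℕ), a ≤ a' → a' ≤ e' → e' ≤ e →
      four c x a e → four c x a' e' := by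
    intro c a a' e' e h1 h2 h3 h4
    have h5 := hAM c 4 x a a' e' e (Or.inr rfl) h1 h2 h3
    unfold ar at h5
    rw [if_pos rfl, if_pos rfl] at h5
    exact h5 h4
  obtain ⟨hT, hF⟩ := h2 i b x v r m n N (by omega) hmn.le (by omega) hbox hv hvr hno
  obtain ⟨h6T, h6F⟩ := h10 i b x v r m n N (by omega) hmn (by omega) hbox hv hvr hno
  have hw : ((x.1 + m, x.2) : V) ∈ ann x m n := by
    simp only [ann, Set.mem_ofPred_eq, sd]
    omega
  have hagree1 : ∀ (k : Bool), ∀ w ∈ ann x m n, ∀ u ∈ ann x (r + 2) m', rc (col b) w k u = col b u := by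
    intro k w hw u hu
    unfold rc
    rw [if_neg]
    exact UI4_far hu.2 hw.1 (by omega)
  have hagree2 : ∀ (k : Bool), ∀ w ∈ ann x m n, ∀ u ∈ ann x n' N, rc (col b) w k u = col b u := by
    intro k w hw u hu
    unfold rc
    rw [if_neg]
    exact UI4_far' hu.1 hw.2 (by omega)
  by_cases hb : b ∈ Fc i
  · left
    have hT' := hT hb
    refine ⟨?_, ?_, ?_⟩
    · have := hAM4 _ (r + 2) (r + 2) m' N le_rfl (by omega) (by omega) (hT' _ hw)
      exact UI4_cl (hagree1 false _ hw) this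
    · exact h6T hb
    · have := hAM4 _ (r + 2) n' N N (by omega) hN.le le_rfl (hT' _ hw)
      exact UI4_cl (hagree2 false _ hw) this
  · right
    have hF' := hF hb
    have hcol : col (fun v => !(b v)) = fl (col b) := rfl
    show four (col fun v => !(b v)) x (r + 2) m' ∧ six (col fun v => !(b v)) x m n ∧
      four (col fun v => !(b v)) x n' N
    rw [hcol]
    refine ⟨?_, ?_, ?_⟩
    · rw [h3 _ _ _ _ hx (by omega) (by omega)]
      have := hAM4 _ (r + 2) (r + 2) m' N le_rfl (by omega) (by omega) (hF' _ hw)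
      exact UI4_cl (hagree1 true _ hw) this
    · exact h6F hb
    · rw [h3 _ _ _ _ hx (by omega) hN]
      have := hAM4 _ (r + 2) n' N N (by omega) hN.le le_rfl (hF' _ hw)
      exact UI4_cl (hagree2 true _ hw) this

end TP
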