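import Pool.Agent.helper33.SP.SpecC1
import Pool.Agent.helper96.DP.Basic
import Pool.Agent.helper64.TP.Basic

/-! # sp:UI7 : translation invariance (vectors of even coordinate sum) -/

namespace TP

open DP MeasureTheory

theorem UI7_sd (x u v : V) : sd (u + x) (v + x) = sd u v := by
  simp [sd, Prod.fst_add, Prod.snd_add]

theorem UI7_adj {x : V} (hx : (x.1 + x.2) % 2 = 0) {u v : V} (h : Adj u v) :
    Adj (u + x) (v + x) := by
  obtain ⟨h1, h2⟩ := h
  refine ⟨by rw [UI7_sd]; exact h1, ?_⟩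
  rcases h2 with h2 | h2 | h2
  · left; simp [h2]
  · right; left; simp [h2]
  · right; right
    simp only [Prod.fst_add, Prod.snd_add]
    have : u.1 + x.1 + (u.2 + x.2) = (u.1 + u.2) + (x.1 + x.2) := by ring
    rw [this]
    exact h2.add (Int.even_iff.mpr hx)

theorem UI7_con {x : V} (hx : (x.1 + x.2) % 2 = 0) {W W' : Set V}
    (hW : ∀ w ∈ W, w + x ∈ W') {u v : V} (h : Con W u v) : Con W' (u + x) (v + x) := by
  refine h.induct (fun a => Con W' (u + x) (a + x)) (DP.Con.refl (hW _ h.mem_left)) ?_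
  intro a b _ hb hab _ ih
  exact ih.tail (UI7_adj hx hab) (hW _ hb)

theorem UI7_neg {x : V} (hx : (x.1 + x.2) % 2 = 0) : ((-x).1 + (-x).2) % 2 = 0 := by
  simp only [Prod.fst_neg, Prod.snd_neg]
  omega

theorem UI7_conn {x : V} (hx : (x.1 + x.2) % 2 = 0) (c : V → Bool) (k : Bool) (y : V)
    (m n : ℕ) (u v : V) :
    Conn (fun w => c (w + x)) k (ann y m n) u v ↔ Conn c k (ann (y + x) m n) (u + x) (v + x) := by
  constructor
  · intro h
    refine UI7_con hx ?_ h
    intro w hw
    refine ⟨?_, hw.2⟩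
    have := hw.1
    simp only [ann, Set.mem_ofPred_eq, UI7_sd] at this ⊢
    exact this
  · intro h
    have h' := UI7_con (x := -x) (W' := {w | w ∈ ann y m n ∧ c (w + x) = k})
      (UI7_neg hx) ?_ h
    · have h2 : Con {w | w ∈ ann y m n ∧ c (w + x) = k} u v := by simpa using h'
      exact h2
    · intro w hw
      refine ⟨?_, by simpa using hw.2⟩
      have := hw.1
      simp only [ann, Set.mem_ofPred_eq] at this ⊢
      have e := UI7_sd x y (w + -x)
      simp only [neg_add_cancel_right] at e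
      rwa [← e]

theorem UI7_bd {x y u : V} {m : ℕ} : u + x ∈ bd (y + x) m ↔ u ∈ bd y m := by
  simp only [bd, Set.mem_ofPred_eq, UI7_sd]

theorem UI7_ann {x y u : V} {m n : ℕ} : u + x ∈ ann (y + x) m n ↔ u ∈ ann y m n := by
  simp only [ann, Set.mem_ofPred_eq, UI7_sd]

theorem UI7_four {x : V} (hx : (x.1 + x.2) % 2 = 0) (c : V → Bool) (m n : ℕ) :
    four (fun w => c (w + x)) 0 m n ↔ four c x m n := by
  have e : ∀ (w : V) (r : ℕ), w + x ∈ bd x r ↔ w ∈ bd 0 r := by
    intro w r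
    have := UI7_bd (x := x) (y := 0) (u := w) (m := r)
    rwa [zero_add] at this
  have e2 : ∀ u v : V, Conn (fun w => c (w + x)) true (ann 0 m n) u v ↔
      Conn c true (ann x m n) (u + x) (v + x) := by
    intro u v
    have := UI7_conn hx c true 0 m n u v
    rwa [zero_add] at this
  unfold four twoCl
  constructor
  · rintro ⟨u, hu, v, hv, ⟨u', hu', h1⟩, ⟨v', hv', h2⟩, h3⟩
    exact ⟨u + x, (e _ _).2 hu, v + x, (e _ _).2 hv, ⟨u' + x, (e _ _).2 hu', (e2 _ _).1 h1⟩,
      ⟨v' + x, (e _ _).2 hv', (e2 _ _).1 h2⟩, fun h => h3 ((e2 _ _).2 h)⟩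
  · rintro ⟨u, hu, v, hv, ⟨u', hu', h1⟩, ⟨v', hv', h2⟩, h3⟩
    have s : ∀ w : V, (w + -x) + x = w := fun w => by simp
    refine ⟨u + -x, (e _ _).1 (by rwa [s]), v + -x, (e _ _).1 (by rwa [s]),
      ⟨u' + -x, (e _ _).1 (by rwa [s]), (e2 _ _).2 (by rwa [s, s])⟩,
      ⟨v' + -x, (e _ _).1 (by rwa [s]), (e2 _ _).2 (by rwa [s, s])⟩, fun h => h3 ?_⟩
    have := (e2 _ _).1 h
    rwa [s, s] at this

theorem UI7_br {x : V} (hx : (x.1 + x.2) % 2 = 0) (w : V) : br (w + x) = br w + x := by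
  unfold br
  have e : ((w + x).1 + (w + x).2) % 2 = (w.1 + w.2) % 2 := by
    simp only [Prod.fst_add, Prod.snd_add]; omega
  rw [e]
  split_ifs
  · rfl
  · ext
    · simp only [Prod.fst_add]; ring
    · rfl

theorem UI7_rc {x : V} (hx : (x.1 + x.2) % 2 = 0) (c : V → Bool) (v : V) :
    rc (fun w => c (w + x)) v false = fun w => (rc c (v + x) false) (w + x) := by
  funext w
  unfold rc
  rw [UI7_br hx, UI7_br hx]
  simp only [add_left_inj]

theorem UI7_inX {x : V} (hx : (x.1 + x.2) % 2 = 0) (c : V → Bool) (m n : ℕ) (p : V) :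
    inX (fun w => c (w + x)) 0 m n p ↔ inX c x m n (p + x) := by
  have e : ∀ (w : V) (r : ℕ), w + x ∈ bd x r ↔ w ∈ bd 0 r := by
    intro w r
    have := UI7_bd (x := x) (y := 0) (u := w) (m := r)
    rwa [zero_add] at this
  have e2 : ∀ (k : Bool) (u v : V), Conn (fun w => c (w + x)) k (ann 0 m n) u v ↔
      Conn c k (ann x m n) (u + x) (v + x) := by
    intro k u v
    have := UI7_conn hx c k 0 m n u v
    rwa [zero_add] at this
  unfold inX
  constructor
  · rintro ⟨h1, u, hu, h2⟩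
    exact ⟨(e _ _).2 h1, u + x, (e _ _).2 hu, (e2 _ _ _).1 h2⟩
  · rintro ⟨h1, u, hu, h2⟩
    have s : (u + -x) + x = u := by simp
    exact ⟨(e _ _).1 h1, u + -x, (e _ _).1 (by rwa [s]), (e2 _ _ _).2 (by rwa [s])⟩

theorem UI7_six2 {x : V} (hx : (x.1 + x.2) % 2 = 0) (c : V → Bool) (m n : ℕ) :
    (∃ p q : V, c (p + x) = false ∧ c (q + x) = false ∧ inX (fun w => c (w + x)) 0 m n p ∧
      inX (fun w => c (w + x)) 0 m n q ∧ ∀ v ∈ ann 0 m n,
        ¬ Conn (rc (fun w => c (w + x)) v false) false (ann 0 m n) p q) ↔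
    (∃ p q : V, c p = false ∧ c q = false ∧ inX c x m n p ∧ inX c x m n q ∧ ∀ v ∈ ann x m n,
      ¬ Conn (rc c v false) false (ann x m n) p q) := by
  have e : ∀ (w : V), w + x ∈ ann x m n ↔ w ∈ ann 0 m n := by
    intro w
    have := UI7_ann (x := x) (y := 0) (u := w) (m := m) (n := n)
    rwa [zero_add] at this
  have e2 : ∀ (c : V → Bool) (k : Bool) (u v : V), Conn (fun w => c (w + x)) k (ann 0 m n) u v ↔
      Conn c k (ann x m n) (u + x) (v + x) := by
    intro c k u v
    have := UI7_conn hx c k 0 m n u v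
    rwa [zero_add] at this
  constructor
  · rintro ⟨p, q, hp, hq, h1, h2, h3⟩
    refine ⟨p + x, q + x, hp, hq, (UI7_inX hx c m n p).1 h1, (UI7_inX hx c m n q).1 h2, ?_⟩
    intro v hv h4
    have s : (v + -x) + x = v := by simp
    refine h3 (v + -x) ((e _).1 (by rwa [s])) ?_
    rw [UI7_rc hx, e2, s]
    exact h4
  · rintro ⟨p, q, hp, hq, h1, h2, h3⟩
    have sp : (p + -x) + x = p := by simp
    have sq : (q + -x) + x = q := by simp
    refine ⟨p + -x, q + -x, by rwa [sp], by rwa [sq], (UI7_inX hx c m n _).2 (by rwa [sp]),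
      (UI7_inX hx c m n _).2 (by rwa [sq]), ?_⟩
    intro v hv h4
    refine h3 (v + x) ((e v).2 hv) ?_
    rw [UI7_rc hx, e2, sp, sq] at h4
    exact h4

theorem UI7_six {x : V} (hx : (x.1 + x.2) % 2 = 0) (c : V → Bool) (m n : ℕ) :
    six (fun w => c (w + x)) 0 m n ↔ six c x m n := by
  have e : ∀ (w : V), w + x ∈ ann x m n ↔ w ∈ ann 0 m n := by
    intro w
    have := UI7_ann (x := x) (y := 0) (u := w) (m := m) (n := n)
    rwa [zero_add] at this
  first
  | exact UI7_six2 hx c m n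
  | (unfold six
     constructor
     · intro h v hv
       have s : (v + -x) + x = v := by simp
       have h1 := h (v + -x) ((e _).1 (by rwa [s]))
       rw [UI7_rc hx, UI7_four hx, s] at h1
       exact h1
     · intro h v hv
       rw [UI7_rc hx, UI7_four hx]
       exact h _ ((e v).2 hv))

theorem UI7_col {x : V} (hx : (x.1 + x.2) % 2 = 0) (b : V → Bool) :
    col (fun w => b (w + x)) = fun w => col b (w + x) := by
  funext w
  unfold col
  rw [UI7_br hx]

theorem UI7_loc {x : V} (hx : (x.1 + x.2) % 2 = 0) {F : Set (V → Bool)} (hF : Loc F Set.univ) :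
    Loc {b : V → Bool | (fun v => b ((Equiv.addRight x) v)) ∈ F} Set.univ := by
  classical
  obtain ⟨Λ, -, h2⟩ := hF
  refine ⟨Λ.image fun w => w + x, Set.subset_univ _, ?_⟩
  intro b b' hb
  refine h2 _ _ ?_
  intro v hv
  have h3 := hb (v + x) (by
    rw [Finset.mem_coe, Finset.mem_image]
    exact ⟨v, hv, rfl⟩)
  rw [UI7_br hx] at h3
  exact h3

theorem UI7 (hs : Bsym_stmt) (hm : Bmarg_stmt) (h5 : UI5_stmt) : UI7_stmt := by
  have key : ∀ (p : (V → Bool) → Prop) (x : V), (x.1 + x.2) % 2 = 0 → Loc (Ev p) Set.univ →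
      Pr (Ev fun c => p fun v => c (v.1 + x.1, v.2 + x.2)) = Pr (Ev p) := by
    intro p x hx hL
    have e : {b : V → Bool | (fun v => b ((Equiv.addRight x) v)) ∈ Ev p} =
        Ev fun c => p fun v => c (v.1 + x.1, v.2 + x.2) := by
      ext b
      show p (col fun w => b (w + x)) ↔ p fun w => col b (w + x)
      rw [UI7_col hx b]
    have hF' := UI7_loc hx hL
    have h := hs (Equiv.addRight x) (fun _ => 0) (Ev p) Set.univ Set.univ hL (Loc.univ _)
    have e' : {b : V → Bool | (fun v => b ((Equiv.addRight x) v)) ∈ (Set.univ : Set (V → Bool))} =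
        Set.univ := by
      ext b; simp
    rw [e', hm _ _ _ hL] at h
    have h2 := hm (fun v => (fun _ : V => (0 : ℝ)) ((Equiv.addRight x).symm v)) _ _ hF'
    rw [← e, ← h2]
    exact h
  refine ⟨key, ?_⟩
  intro x m n hx
  constructor
  · have h := key (fun c => four c 0 m n) x hx ((h5 0 m n).1.mono (Set.subset_univ _))
    rw [← h]
    congr 1
    ext b
    exact (UI7_four hx (col b) m n).symm
  · have h := key (fun c => six c 0 m n) x hx ((h5 0 m n).2.mono (Set.subset_univ _))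
    rw [← h]
    congr 1
    ext b
    exact (UI7_six hx (col b) m n).symm

end TP
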